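import Mathlib

/-!
Sesquilinear forms over `ℤ[t, t⁻¹]` for the involution `t ↦ t⁻¹`, given by matrices.
-/

open LaurentPolynomial Matrix

namespace Pool.Agent.Lib.MP_64c4e2_gt

/-- Conjugate transpose of a matrix over `ℤ[t, t⁻¹]` for the involution `t ↦ t⁻¹`. -/
noncomputable def conjT {m n : Type*} (A : Matrix m n ℤ[T;T⁻¹]) : Matrix n m ℤ[T;T⁻¹] :=
  (A.map invert)ᵀ

/-- Two square matrices over `ℤ[t, t⁻¹]` (thought of as Gram matrices of sesquilinear forms for the
involution `t ↦ t⁻¹`) are *isometric* if they are related by an invertible base change. -/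
def Isometric {n : Type*} [Fintype n] [DecidableEq n] (A B : Matrix n n ℤ[T;T⁻¹]) : Prop :=
  ∃ P : Matrix n n ℤ[T;T⁻¹], IsUnit P.det ∧ conjT P * A * P = B

end Pool.Agent.Lib.MP_64c4e2_gt
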