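import Mathlib

/-!
Elementary facts on Laurent polynomials over `ℤ`: the sum of the squares of the coefficients is the
constant coefficient of `ū u`, and the classification of the elements for which it is `0`, `1`, `2`.
-/

open LaurentPolynomial

namespace Pool.Agent.Lib.MP_64c4e2_gt

/-- The sum of the squares of the coefficients. -/
noncomputable def nrm (u : ℤ[T;T⁻¹]) : ℤ := ∑ a ∈ u.coeff.support, (u.coeff a) ^ 2

lemma coeff_zero_invert_mul (u : ℤ[T;T⁻¹]) : (invert u * u).coeff 0 = nrm u := by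
  rw [mul_comm, AddMonoidAlgebra.coeff_mul_apply_left]
  unfold nrm Finsupp.sum
  apply Finset.sum_congr rfl
  intro a _
  simp [pow_two]

lemma nrm_nonneg (u : ℤ[T;T⁻¹]) : 0 ≤ nrm u :=
  Finset.sum_nonneg fun _ _ => sq_nonneg _

lemma nrm_eq_zero {u : ℤ[T;T⁻¹]} (h : nrm u = 0) : u = 0 := by
  unfold nrm at h
  rw [Finset.sum_eq_zero_iff_of_nonneg fun _ _ => sq_nonneg _] at h
  ext a
  by_contra hne
  have := h a (by simpa using hne)
  exact hne (by simpa using this)

lemma nrm_zero : nrm 0 = 0 := by simp [nrm]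

lemma nrm_two_mul (u : ℤ[T;T⁻¹]) : nrm (2 * u) = 4 * nrm u := by
  rw [← coeff_zero_invert_mul, ← coeff_zero_invert_mul]
  have : invert (2 * u) * (2 * u) = (4 : ℤ) • (invert u * u) := by
    rw [map_mul, map_ofNat, zsmul_eq_mul]
    push_cast
    ring
  rw [this, AddMonoidAlgebra.coeff_smul_apply, smul_eq_mul]

/-- Removing one monomial. -/
lemma nrm_split (u : ℤ[T;T⁻¹]) (a : ℤ) :
    nrm u = (u.coeff a) ^ 2 + nrm (u - C (u.coeff a) * T a) := by
  classical
  have hc : ∀ b, (u - C (u.coeff a) * T a).coeff b = if b = a then 0 else u.coeff b := by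
    intro b
    rw [← single_eq_C_mul_T]
    simp only [AddMonoidAlgebra.coeff_sub, AddMonoidAlgebra.coeff_single, Finsupp.coe_sub, Pi.sub_apply, Finsupp.single_apply]
    by_cases h : b = a
    · subst h; simp
    · simp [h, Ne.symm h]
  have h1 : nrm u = ∑ b ∈ insert a u.coeff.support, (u.coeff b) ^ 2 := by
    unfold nrm
    apply Finset.sum_subset (Finset.subset_insert _ _)
    intro x _ hx
    simp at hx
    simp [hx]
  have h2 : nrm (u - C (u.coeff a) * T a) =
      ∑ b ∈ insert a u.coeff.support, ((u - C (u.coeff a) * T a).coeff b) ^ 2 := by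
    unfold nrm
    apply Finset.sum_subset
    · intro x hx
      rw [Finsupp.mem_support_iff, hc] at hx
      apply Finset.mem_insert_of_mem
      rw [Finsupp.mem_support_iff]
      intro h0
      apply hx
      rw [h0]; simp
    · intro x _ hx
      simp at hx
      simp [hx]
  rw [h1, h2]
  have hmem : a ∈ insert a u.coeff.support := Finset.mem_insert_self _ _
  rw [← Finset.add_sum_erase _ _ hmem, ← Finset.add_sum_erase _ _ hmem]
  rw [hc a]
  simp only [if_true]
  have : ∀ b ∈ (insert a u.coeff.support).erase a,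
      ((u - C (u.coeff a) * T a).coeff b) ^ 2 = (u.coeff b) ^ 2 := by
    intro b hb
    rw [hc, if_neg (Finset.ne_of_mem_erase hb)]
  rw [Finset.sum_congr rfl this]
  ring

lemma exists_coeff_ne {u : ℤ[T;T⁻¹]} (h : u ≠ 0) : ∃ a, u.coeff a ≠ 0 := by
  by_contra hcon
  push Not at hcon
  exact h (by ext a; simpa using hcon a)

lemma nrm_eq_one {u : ℤ[T;T⁻¹]} (h : nrm u = 1) :
    ∃ (a ε : ℤ), (ε = 1 ∨ ε = -1) ∧ u = C ε * T a := by
  have hu : u ≠ 0 := by
    rintro rfl
    rw [nrm_zero] at h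
    exact absurd h (by norm_num)
  obtain ⟨a, ha⟩ := exists_coeff_ne hu
  have hs := nrm_split u a
  have h0 := nrm_nonneg (u - C (u.coeff a) * T a)
  have hpos : 0 < (u.coeff a) ^ 2 := by positivity
  have h1 : (u.coeff a) ^ 2 = 1 := by omega
  have h2 : nrm (u - C (u.coeff a) * T a) = 0 := by omega
  refine ⟨a, u.coeff a, ?_, ?_⟩
  · have : (u.coeff a - 1) * (u.coeff a + 1) = 0 := by linear_combination h1
    rcases mul_eq_zero.mp this with h | h
    · left; omega
    · right; omega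
  · exact sub_eq_zero.mp (nrm_eq_zero h2)

lemma nrm_eq_two {u : ℤ[T;T⁻¹]} (h : nrm u = 2) :
    ∃ (a b ε η : ℤ), (ε = 1 ∨ ε = -1) ∧ (η = 1 ∨ η = -1) ∧ a ≠ b ∧
      u = C ε * T a + C η * T b := by
  have hu : u ≠ 0 := by
    rintro rfl
    rw [nrm_zero] at h
    exact absurd h (by norm_num)
  obtain ⟨a, ha⟩ := exists_coeff_ne hu
  have hs := nrm_split u a
  have h0 := nrm_nonneg (u - C (u.coeff a) * T a)
  have hpos : 0 < (u.coeff a) ^ 2 := by positivity
  have hle : (u.coeff a) ^ 2 ≤ 2 := by omega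
  have hlt : (u.coeff a) ^ 2 < 2 ^ 2 := by omega
  have habs := abs_lt_of_sq_lt_sq' hlt (by norm_num)
  have hε : u.coeff a = 1 ∨ u.coeff a = -1 := by
    rcases habs with ⟨h3, h4⟩
    omega
  have h1 : (u.coeff a) ^ 2 = 1 := by rcases hε with h | h <;> rw [h] <;> norm_num
  have h2 : nrm (u - C (u.coeff a) * T a) = 1 := by omega
  obtain ⟨b, η, hη, hb⟩ := nrm_eq_one h2
  refine ⟨a, b, u.coeff a, η, hε, hη, ?_, ?_⟩
  · rintro rfl
    have h3 : (u - C (u.coeff a) * T a).coeff a = η := by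
      rw [hb, ← single_eq_C_mul_T, AddMonoidAlgebra.coeff_single, Finsupp.single_eq_same]
    rw [← single_eq_C_mul_T, AddMonoidAlgebra.coeff_sub, Finsupp.sub_apply,
      AddMonoidAlgebra.coeff_single, Finsupp.single_eq_same, sub_self] at h3
    omega
  · rw [← hb]; ring

/-- Reduction modulo two. -/
noncomputable def red : ℤ[T;T⁻¹] →+* (ZMod 2)[T;T⁻¹] :=
  AddMonoidAlgebra.mapRingHom ℤ (Int.castRingHom (ZMod 2))

lemma red_T (n : ℤ) : red (T n) = T n := by
  ext a
  simp [red, AddMonoidAlgebra.coeff_mapRingHom]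

lemma red_C (n : ℤ) : red (C n) = C (n : ZMod 2) := by
  ext a
  rw [red, AddMonoidAlgebra.coeff_mapRingHom]
  simp only [C_apply]
  split_ifs <;> simp

lemma red_two : red 2 = 0 := by
  have : (2 : ℤ[T;T⁻¹]) = C 2 := by simp
  rw [this, red_C]
  have : ((2 : ℤ) : ZMod 2) = 0 := by decide
  rw [this, map_zero]

lemma red_C_unit {ε : ℤ} (h : ε = 1 ∨ ε = -1) : red (C ε) = 1 := by
  rw [red_C]
  have : (ε : ZMod 2) = 1 := by
    rcases h with rfl | rfl
    · simp
    · decide
  rw [this, map_one]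

lemma exists_of_red_eq_zero {u : ℤ[T;T⁻¹]} (h : red u = 0) : ∃ v, u = 2 * v := by
  have hc : ∀ a, (2 : ℤ) ∣ u.coeff a := by
    intro a
    have : (red u).coeff a = 0 := by rw [h]; simp
    rw [red, AddMonoidAlgebra.coeff_mapRingHom] at this
    have h3 : ((u.coeff a : ℤ) : ZMod 2) = 0 := this
    exact (ZMod.intCast_zmod_eq_zero_iff_dvd _ 2).mp h3
  refine ⟨AddMonoidAlgebra.ofCoeff (u.coeff.mapRange (· / 2) (by simp)), ?_⟩
  ext a
  rw [two_mul, AddMonoidAlgebra.coeff_add, Finsupp.add_apply]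
  change u.coeff a = u.coeff a / 2 + u.coeff a / 2
  have := hc a
  omega

end Pool.Agent.Lib.MP_64c4e2_gt
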