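import Mathlib
import Pool.Agent.Lib.MP_64c4e2_gt.Defs
import Pool.Agent.Lib.MP_64c4e2_gt.Laurent

/-!
The rank two forms `G k` and their elementary properties.
-/

open LaurentPolynomial Matrix

namespace Pool.Agent.Lib.MP_64c4e2_gt

lemma conjT_apply {m n : Type*} (A : Matrix m n ℤ[T;T⁻¹]) (i : n) (j : m) :
    conjT A i j = invert (A j i) := rfl

lemma invert_invert' (u : ℤ[T;T⁻¹]) : invert (invert u) = u := involutive_invert u

lemma conjT_conjT {m n : Type*} (A : Matrix m n ℤ[T;T⁻¹]) : conjT (conjT A) = A := by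
  refine Matrix.ext fun i j => ?_
  simp [conjT_apply, invert_invert']

lemma conjT_mul {l m n : Type*} [Fintype m] (A : Matrix l m ℤ[T;T⁻¹]) (B : Matrix m n ℤ[T;T⁻¹]) :
    conjT (A * B) = conjT B * conjT A := by
  refine Matrix.ext fun i j => ?_
  simp [conjT_apply, Matrix.mul_apply, map_sum, map_mul, mul_comm]

lemma conjT_one {n : Type*} [DecidableEq n] : conjT (1 : Matrix n n ℤ[T;T⁻¹]) = 1 := by
  refine Matrix.ext fun i j => ?_
  rw [conjT_apply, Matrix.one_apply, Matrix.one_apply]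
  by_cases h : i = j
  · simp [h]
  · rw [if_neg h, if_neg (Ne.symm h), map_zero]

lemma conjT_smul {m n : Type*} (c : ℤ[T;T⁻¹]) (A : Matrix m n ℤ[T;T⁻¹]) :
    conjT (c • A) = invert c • conjT A := by
  refine Matrix.ext fun i j => ?_
  simp [conjT_apply]

lemma conjT_neg {m n : Type*} (A : Matrix m n ℤ[T;T⁻¹]) : conjT (-A) = - conjT A := by
  refine Matrix.ext fun i j => ?_
  simp [conjT_apply]

lemma det_conjT {n : Type*} [Fintype n] [DecidableEq n] (A : Matrix n n ℤ[T;T⁻¹]) :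
    (conjT A).det = invert A.det := by
  unfold conjT
  rw [Matrix.det_transpose]
  exact (AlgHom.map_det (invert (R := ℤ)).toAlgHom A).symm

/-- `1 + t^k - t^(3k)` -/
noncomputable def fp (k : ℤ) : ℤ[T;T⁻¹] := 1 + T k - T (3 * k)

/-- `t^k` -/
noncomputable def rp (k : ℤ) : ℤ[T;T⁻¹] := T k

/-- `t^(4k) - t^(3k)` -/
noncomputable def sp (k : ℤ) : ℤ[T;T⁻¹] := T (4 * k) - T (3 * k)

lemma invert_fp (k : ℤ) : invert (fp k) = 1 + T (-k) - T (-(3 * k)) := by
  simp [fp]

lemma bezout (k : ℤ) : rp k * fp k + sp k * invert (fp k) = 1 := by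
  rw [invert_fp]
  unfold rp sp fp
  have h1 : (T (4 * k) : ℤ[T;T⁻¹]) * T (-k) = T (3 * k) := by rw [← T_add]; congr 1; ring
  have h2 : (T (4 * k) : ℤ[T;T⁻¹]) * T (-(3 * k)) = T k := by rw [← T_add]; congr 1; ring
  have h3 : (T (3 * k) : ℤ[T;T⁻¹]) * T (-k) = T (2 * k) := by rw [← T_add]; congr 1; ring
  have h4 : (T (3 * k) : ℤ[T;T⁻¹]) * T (-(3 * k)) = 1 := by rw [← T_add, add_neg_cancel, T_zero]
  have h5 : (T k : ℤ[T;T⁻¹]) * T k = T (2 * k) := by rw [← T_add]; congr 1; ring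
  have h6 : (T k : ℤ[T;T⁻¹]) * T (3 * k) = T (4 * k) := by rw [← T_add]; congr 1; ring
  linear_combination h1 - h2 - h3 + h4 + h5 - h6

/-- The base change matrix. -/
noncomputable def Bm (k : ℤ) : Matrix (Fin 2) (Fin 2) ℤ[T;T⁻¹] :=
  !![fp k, -2 * sp k; invert (fp k), 2 * rp k]

/-- The Gram matrix of the rank two form. -/
noncomputable def Gm (k : ℤ) : Matrix (Fin 2) (Fin 2) ℤ[T;T⁻¹] :=
  !![invert (fp k) * fp k, rp k * fp k - sp k * invert (fp k);
    invert (rp k) * invert (fp k) - invert (sp k) * fp k,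
      2 * (invert (sp k) * sp k + invert (rp k) * rp k)]

lemma det_Bm (k : ℤ) : (Bm k).det = 2 := by
  rw [Bm, Matrix.det_fin_two_of]
  linear_combination 2 * bezout k

lemma conjT_Bm_mul (k : ℤ) : conjT (Bm k) * Bm k = (2 : ℤ[T;T⁻¹]) • Gm k := by
  have h2 : invert (2 : ℤ[T;T⁻¹]) = 2 := map_ofNat _ 2
  refine Matrix.ext fun i j => ?_
  fin_cases i <;> fin_cases j <;>
    simp [Matrix.mul_apply, conjT_apply, Bm, Gm, invert_invert', Fin.sum_univ_two, h2] <;> ring

lemma two_ne : (2 : ℤ[T;T⁻¹]) ≠ 0 := by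
  have : (2 : ℤ[T;T⁻¹]) = C 2 := by simp
  rw [this]
  intro h
  have := congrArg (fun x : ℤ[T;T⁻¹] => x.coeff 0) h
  simp only [C_apply] at this
  simp at this

lemma det_Gm (k : ℤ) : (Gm k).det = 1 := by
  have h := congrArg Matrix.det (conjT_Bm_mul k)
  rw [Matrix.det_mul, det_conjT, det_Bm, Matrix.det_smul] at h
  simp only [map_ofNat, Fintype.card_fin] at h
  have h4 : (2 : ℤ[T;T⁻¹]) * 2 * ((Gm k).det - 1) = 0 := by linear_combination -h
  rcases mul_eq_zero.mp h4 with h5 | h5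
  · exact absurd h5 (mul_ne_zero two_ne two_ne)
  · exact sub_eq_zero.mp h5

lemma conjT_Gm (k : ℤ) : conjT (Gm k) = Gm k := by
  have h2 : invert (2 : ℤ[T;T⁻¹]) = 2 := map_ofNat _ 2
  refine Matrix.ext fun i j => ?_
  fin_cases i <;> fin_cases j <;>
    simp [conjT_apply, Gm, invert_invert', h2] <;> first | ring1 | exact Or.inl (by ring1)

/-! ### Reduction modulo two -/

lemma exists_theta : ∃ θ : (AlgebraicClosure (ZMod 2))ˣ, (θ : AlgebraicClosure (ZMod 2)) ^ 3 + θ + 1 = 0 := by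
  obtain ⟨z, hz⟩ := IsAlgClosed.exists_root
    (Polynomial.X ^ 3 + Polynomial.X + 1 : Polynomial (AlgebraicClosure (ZMod 2))) (by
      have : (Polynomial.X ^ 3 + Polynomial.X + 1 :
        Polynomial (AlgebraicClosure (ZMod 2))).degree = 3 := by compute_degree!
      rw [this]; norm_num)
  have hz' : z ^ 3 + z + 1 = 0 := by simpa [Polynomial.IsRoot] using hz
  have hz0 : z ≠ 0 := by
    rintro rfl
    simp at hz'
  exact ⟨Units.mk0 z hz0, hz'⟩

/-- The evaluation homomorphism at a unit. -/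
noncomputable def ev (τ : (AlgebraicClosure (ZMod 2))ˣ) :
    (ZMod 2)[T;T⁻¹] →+* AlgebraicClosure (ZMod 2) :=
  eval₂ (algebraMap (ZMod 2) (AlgebraicClosure (ZMod 2))) τ

lemma ev_T (τ : (AlgebraicClosure (ZMod 2))ˣ) (n : ℤ) :
    ev τ (T n) = ((τ ^ n : (AlgebraicClosure (ZMod 2))ˣ) : AlgebraicClosure (ZMod 2)) :=
  eval₂_T _ _ _

/-- For `k ≥ 1` there is a unit `τ` at which `fp k` vanishes modulo two but its conjugate does
not. -/
lemma exists_tau {k : ℤ} (hk : 0 < k) : ∃ τ : (AlgebraicClosure (ZMod 2))ˣ,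
    ev τ (red (fp k)) = 0 ∧ ev τ (red (invert (fp k))) ≠ 0 := by
  obtain ⟨θ, hθ⟩ := exists_theta
  obtain ⟨z, hz⟩ := IsAlgClosed.exists_pow_nat_eq (θ : AlgebraicClosure (ZMod 2))
    (n := k.toNat) (by omega)
  have hz0 : z ≠ 0 := by
    rintro rfl
    rw [zero_pow (by omega)] at hz
    exact θ.ne_zero hz.symm
  set τ : (AlgebraicClosure (ZMod 2))ˣ := Units.mk0 z hz0 with hτ
  have hτk : τ ^ k = θ := by
    apply Units.ext
    have : k = (k.toNat : ℤ) := by omega
    rw [this, zpow_natCast]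
    simpa [hτ] using hz
  have hchar : (2 : AlgebraicClosure (ZMod 2)) = 0 := by
    have := CharP.cast_eq_zero (AlgebraicClosure (ZMod 2)) 2
    exact_mod_cast this
  have h3k : τ ^ (3 * k) = θ ^ 3 := by
    rw [mul_comm, _root_.zpow_mul, hτk]; norm_cast
  refine ⟨τ, ?_, ?_⟩
  · rw [fp, map_sub, map_add, map_one, red_T, red_T, map_sub, map_add, map_one, ev_T, ev_T,
      hτk, h3k]
    push_cast
    linear_combination -hθ + (1 + (θ : AlgebraicClosure (ZMod 2))) * hchar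
  · rw [invert_fp, map_sub, map_add, map_one, red_T, red_T, map_sub, map_add, map_one, ev_T, ev_T,
      _root_.zpow_neg, _root_.zpow_neg, hτk, h3k]
    intro h
    have h5 : (θ : AlgebraicClosure (ZMod 2)) ^ 3 *
        (1 + ((θ⁻¹ : (AlgebraicClosure (ZMod 2))ˣ) : AlgebraicClosure (ZMod 2))
          - (((θ ^ 3)⁻¹ : (AlgebraicClosure (ZMod 2))ˣ) : AlgebraicClosure (ZMod 2))) = 0 := by
      rw [h, mul_zero]
    have h6 : (θ : AlgebraicClosure (ZMod 2)) *
        ((θ⁻¹ : (AlgebraicClosure (ZMod 2))ˣ) : AlgebraicClosure (ZMod 2)) = 1 := by simp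
    have h7 : (θ : AlgebraicClosure (ZMod 2)) ^ 3 *
        (((θ ^ 3)⁻¹ : (AlgebraicClosure (ZMod 2))ˣ) : AlgebraicClosure (ZMod 2)) = 1 := by
      rw [← Units.val_pow_eq_pow_val, ← Units.val_mul]; simp
    have h8 : (θ : AlgebraicClosure (ZMod 2)) ^ 3 + (θ : AlgebraicClosure (ZMod 2)) ^ 2 - 1 = 0 := by
      linear_combination h5 - (θ : AlgebraicClosure (ZMod 2)) ^ 2 * h6 + h7
    have h9 : (θ : AlgebraicClosure (ZMod 2)) * ((θ : AlgebraicClosure (ZMod 2)) - 1) = 0 := by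
      linear_combination h8 - hθ + hchar
    rcases mul_eq_zero.mp h9 with h10 | h10
    · exact θ.ne_zero h10
    · have h11 : (θ : AlgebraicClosure (ZMod 2)) = 1 := sub_eq_zero.mp h10
      rw [h11] at hθ
      have : (1 : AlgebraicClosure (ZMod 2)) = 0 := by linear_combination hθ - hchar
      exact one_ne_zero this

lemma ev_inv (τ : (AlgebraicClosure (ZMod 2))ˣ) (u : ℤ[T;T⁻¹]) :
    ev τ⁻¹ (red (invert u)) = ev τ (red u) := by
  induction u using LaurentPolynomial.induction_on' with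
  | add p q hp hq => simp only [map_add, hp, hq]
  | C_mul_T n a =>
    simp only [map_mul, invert_T, invert_C, red_C, red_T, ev_T]
    congr 1
    · simp [ev]
    · simp

lemma T_ne_mul_f {k : ℤ} (hk : 0 < k) (w : (ZMod 2)[T;T⁻¹]) (a : ℤ) :
    T a ≠ w * red (fp k) := by
  obtain ⟨τ, h0, -⟩ := exists_tau hk
  intro h
  have := congrArg (ev τ) h
  rw [map_mul, h0, mul_zero, ev_T] at this
  exact Units.ne_zero _ this

lemma T_ne_mul_f' {k : ℤ} (hk : 0 < k) (w : (ZMod 2)[T;T⁻¹]) (a : ℤ) :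
    T a ≠ w * red (invert (fp k)) := by
  obtain ⟨τ, h0, -⟩ := exists_tau hk
  intro h
  have := congrArg (ev τ⁻¹) h
  rw [map_mul, ev_inv, h0, mul_zero, ev_T] at this
  exact Units.ne_zero _ this

lemma f_ne_T_mul_f' {k : ℤ} (hk : 0 < k) (j : ℤ) :
    red (fp k) ≠ T j * red (invert (fp k)) := by
  obtain ⟨τ, h0, h1⟩ := exists_tau hk
  intro h
  have := congrArg (ev τ) h
  rw [map_mul, h0, ev_T] at this
  exact (mul_ne_zero (Units.ne_zero _) h1) this.symm

lemma red_f_ne_zero {k : ℤ} (hk : 0 < k) : red (fp k) ≠ 0 := by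
  intro h
  have := f_ne_T_mul_f' hk 0
  obtain ⟨τ, h0, h1⟩ := exists_tau hk
  have h2 := congrArg (ev τ⁻¹) h
  rw [map_zero] at h2
  have h3 := ev_inv τ (invert (fp k))
  rw [invert_invert'] at h3
  rw [h3] at h2
  exact h1 h2

lemma red_f'_ne_zero {k : ℤ} (hk : 0 < k) : red (invert (fp k)) ≠ 0 := by
  obtain ⟨τ, h0, h1⟩ := exists_tau hk
  intro h
  rw [h, map_zero] at h1
  exact h1 rfl

/-! ### Short vectors -/

/-- First coordinate of the vector with coordinates `p`, `q`. -/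
noncomputable def uu (k : ℤ) (p q : ℤ[T;T⁻¹]) : ℤ[T;T⁻¹] := fp k * p + -2 * sp k * q

/-- Second coordinate of the vector with coordinates `p`, `q`. -/
noncomputable def vv (k : ℤ) (p q : ℤ[T;T⁻¹]) : ℤ[T;T⁻¹] := invert (fp k) * p + 2 * rp k * q

lemma red_uu (k : ℤ) (p q : ℤ[T;T⁻¹]) : red (uu k p q) = red p * red (fp k) := by
  simp [uu, red_two, mul_comm]

lemma red_vv (k : ℤ) (p q : ℤ[T;T⁻¹]) : red (vv k p q) = red p * red (invert (fp k)) := by
  simp [vv, red_two, mul_comm]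

lemma two_le_nrm {k : ℤ} (hk : 0 < k) (p q : ℤ[T;T⁻¹]) (hp : red p ≠ 0) :
    2 ≤ nrm (uu k p q) ∧ 2 ≤ nrm (vv k p q) := by
  have key : ∀ (u : ℤ[T;T⁻¹]), red u ≠ 0 → (∀ a, T a ≠ red u) → 2 ≤ nrm u := by
    intro u h0 h1
    have hn := nrm_nonneg u
    by_contra hlt
    have h01 : nrm u = 0 ∨ nrm u = 1 := by omega
    rcases h01 with h | h
    · apply h0
      rw [nrm_eq_zero h, map_zero]
    · obtain ⟨a, ε, hε, hu⟩ := nrm_eq_one h
      apply h1 a
      rw [hu, map_mul, red_C_unit hε, red_T, one_mul]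
  constructor
  · apply key
    · rw [red_uu]; exact mul_ne_zero hp (red_f_ne_zero hk)
    · intro a; rw [red_uu]; exact T_ne_mul_f hk _ a
  · apply key
    · rw [red_vv]; exact mul_ne_zero hp (red_f'_ne_zero hk)
    · intro a; rw [red_vv]; exact T_ne_mul_f' hk _ a

lemma coeff_four : (4 : ℤ[T;T⁻¹]).coeff 0 = 4 := by
  have : (4 : ℤ[T;T⁻¹]) = C 4 := by simp
  rw [this, C_apply, if_pos rfl]

lemma red_eq_zero_of_four {k : ℤ} (hk : 0 < k) (p q : ℤ[T;T⁻¹])
    (h : invert (uu k p q) * uu k p q + invert (vv k p q) * vv k p q = 4) : red p = 0 := by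
  by_contra hp
  obtain ⟨h1, h2⟩ := two_le_nrm hk p q hp
  have h3 : nrm (uu k p q) + nrm (vv k p q) = 4 := by
    have := congrArg (fun x : ℤ[T;T⁻¹] => x.coeff 0) h
    simp only [AddMonoidAlgebra.coeff_add, Finsupp.add_apply, coeff_zero_invert_mul,
      coeff_four] at this
    exact this
  obtain ⟨a, b, ε, η, hε, hη, hab, hu⟩ := nrm_eq_two (show nrm (uu k p q) = 2 by omega)
  obtain ⟨c, d, ε', η', hε', hη', hcd, hv⟩ := nrm_eq_two (show nrm (vv k p q) = 2 by omega)
  have hcoef : ∀ (a b ε η : ℤ), (ε = 1 ∨ ε = -1) → (η = 1 ∨ η = -1) →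
      invert (C ε * T a + C η * T b) * (C ε * T a + C η * T b) =
        2 + C (ε * η) * (T (a - b) + T (b - a)) := by
    intro a b ε η hε hη
    simp only [map_add, map_mul, invert_C, invert_T]
    have e1 : (T (-a) : ℤ[T;T⁻¹]) * T a = 1 := by rw [← T_add, neg_add_cancel, T_zero]
    have e2 : (T (-b) : ℤ[T;T⁻¹]) * T b = 1 := by rw [← T_add, neg_add_cancel, T_zero]
    have e3 : (T (-a) : ℤ[T;T⁻¹]) * T b = T (b - a) := by rw [← T_add]; congr 1; ring
    have e4 : (T (-b) : ℤ[T;T⁻¹]) * T a = T (a - b) := by rw [← T_add]; congr 1; ring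
    have e5 : (C ε : ℤ[T;T⁻¹]) * C ε = 1 := by
      rw [← map_mul]; rcases hε with rfl | rfl <;> simp
    have e6 : (C η : ℤ[T;T⁻¹]) * C η = 1 := by
      rw [← map_mul]; rcases hη with rfl | rfl <;> simp
    linear_combination (C ε * C ε) * e1 + (C η * C η) * e2 + (C ε * C η) * e3
      + (C ε * C η) * e4 + e5 + e6
  rw [hu, hv, hcoef a b ε η hε hη, hcoef c d ε' η' hε' hη'] at h
  have h4 : C (ε * η) * (T (a - b) + T (b - a)) + C (ε' * η') * (T (c - d) + T (d - c))
      = (0 : ℤ[T;T⁻¹]) := by linear_combination h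
  have h5 : a - b = c - d ∨ a - b = d - c := by
    by_contra hcon
    push Not at hcon
    obtain ⟨hc1, hc2⟩ := hcon
    have h6 := congrArg (fun x : ℤ[T;T⁻¹] => x.coeff (a - b)) h4
    rw [mul_add, mul_add, ← single_eq_C_mul_T, ← single_eq_C_mul_T, ← single_eq_C_mul_T,
      ← single_eq_C_mul_T] at h6
    simp only [AddMonoidAlgebra.coeff_add, Finsupp.add_apply, AddMonoidAlgebra.coeff_single,
      AddMonoidAlgebra.coeff_zero, Finsupp.zero_apply, Finsupp.single_apply] at h6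
    rw [if_pos trivial, if_neg (by omega), if_neg (Ne.symm hc1), if_neg (Ne.symm hc2)] at h6
    rcases hε with rfl | rfl <;> rcases hη with rfl | rfl <;> simp at h6
  have hru : red (uu k p q) = T a + T b := by
    rw [hu, map_add, map_mul, map_mul, red_C_unit hε, red_C_unit hη, red_T, red_T, one_mul,
      one_mul]
  have hrv : red (vv k p q) = T c + T d := by
    rw [hv, map_add, map_mul, map_mul, red_C_unit hε', red_C_unit hη', red_T, red_T, one_mul,
      one_mul]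
  have h7 : ∃ j : ℤ, red (uu k p q) = T j * red (vv k p q) := by
    rcases h5 with h5 | h5
    · refine ⟨a - c, ?_⟩
      rw [hru, hrv, mul_add, ← T_add, ← T_add]
      congr 2 <;> ring_nf <;> omega
    · refine ⟨a - d, ?_⟩
      rw [hru, hrv, mul_add, ← T_add, ← T_add, add_comm]
      congr 2 <;> ring_nf <;> omega
  obtain ⟨j, hj⟩ := h7
  rw [red_uu, red_vv] at hj
  have h8 : red p * (red (fp k) - T j * red (invert (fp k))) = 0 := by
    linear_combination hj
  rcases mul_eq_zero.mp h8 with h9 | h9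
  · exact hp h9
  · exact f_ne_T_mul_f' hk j (sub_eq_zero.mp h9)

/-- Coordinates of vectors of norm one in `G k` plus a standard form: the first block vanishes. -/
lemma uu_vv_eq_zero {k : ℤ} (hk : 0 < k) (p q : ℤ[T;T⁻¹])
    (h : nrm (uu k p q) + nrm (vv k p q) ≤ 2) : uu k p q = 0 ∧ vv k p q = 0 := by
  have hu := nrm_nonneg (uu k p q)
  have hv := nrm_nonneg (vv k p q)
  have hp : red p = 0 := by
    by_contra hp
    obtain ⟨h1, h2⟩ := two_le_nrm hk p q hp
    omega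
  obtain ⟨u', hu'⟩ := exists_of_red_eq_zero (u := uu k p q) (by rw [red_uu, hp, zero_mul])
  obtain ⟨v', hv'⟩ := exists_of_red_eq_zero (u := vv k p q) (by rw [red_vv, hp, zero_mul])
  have h3 : nrm (uu k p q) = 4 * nrm u' := by rw [hu', nrm_two_mul]
  have h4 : nrm (vv k p q) = 4 * nrm v' := by rw [hv', nrm_two_mul]
  have h5 := nrm_nonneg u'
  have h6 := nrm_nonneg v'
  exact ⟨nrm_eq_zero (by omega), nrm_eq_zero (by omega)⟩

lemma coords_eq_zero {k : ℤ} (p q : ℤ[T;T⁻¹]) (hu : uu k p q = 0) (hv : vv k p q = 0) :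
    p = 0 ∧ q = 0 := by
  have hb := bezout k
  unfold uu at hu
  unfold vv at hv
  have hp : p = 0 := by
    linear_combination (-p) * hb + rp k * hu + sp k * hv
  subst hp
  have hq2 : 2 * q = 0 := by
    linear_combination (-2 * q) * hb + fp k * hv - invert (fp k) * hu
  rcases mul_eq_zero.mp hq2 with h | h
  · exact absurd h two_ne
  · exact ⟨rfl, h⟩

end Pool.Agent.Lib.MP_64c4e2_gt
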