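import Mathlib
import Pool.Agent.Lib.MP_64c4e2_gt.Planes

/-!
The forms `G k ⊕ 1` are pairwise non isometric and none of them is standard.
-/

open LaurentPolynomial Matrix

namespace Pool.Agent.Lib.MP_64c4e2_gt

/-! ### Comparison of coefficients modulo two -/

lemma comb1_aux {a b k l : ℤ} (hk : 0 < k) (hkl : k < l)
    (h : (T a * (1 + T k + T (3 * k)) * (1 + T (-l) + T (-(3 * l))) : (ZMod 2)[T;T⁻¹]) =
      T b * (1 + T (-k) + T (-(3 * k))) * (1 + T l + T (3 * l))) : False := by
  have hL : (T a * (1 + T k + T (3 * k)) * (1 + T (-l) + T (-(3 * l))) : (ZMod 2)[T;T⁻¹]) =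
      T (a + -(3 * l)) + T (a + k + -(3 * l)) + T (a + 3 * k + -(3 * l)) + T (a + -l)
      + T (a + k + -l) + T (a + 3 * k + -l) + T a + T (a + k) + T (a + 3 * k) := by
    simp only [T_add]; ring
  have hR : (T b * (1 + T (-k) + T (-(3 * k))) * (1 + T l + T (3 * l)) : (ZMod 2)[T;T⁻¹]) =
      T (b + -(3 * k)) + T (b + -(3 * k) + l) + T (b + -(3 * k) + 3 * l) + T (b + -k)
      + T (b + -k + l) + T (b + -k + 3 * l) + T b + T (b + l) + T (b + 3 * l) := by
    simp only [T_add]; ring
  rw [hL, hR] at h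
  rcases lt_trichotomy (a - 3 * l) (b - 3 * k) with hlt | heq | hgt
  · have h1 := congrArg (fun x : (ZMod 2)[T;T⁻¹] => x.coeff (a - 3 * l)) h
    simp only [AddMonoidAlgebra.coeff_add, Finsupp.add_apply, T_apply] at h1
    rw [if_pos (by omega)] at h1
    rw [if_neg (by omega), if_neg (by omega), if_neg (by omega), if_neg (by omega),
      if_neg (by omega), if_neg (by omega), if_neg (by omega), if_neg (by omega),
      if_neg (by omega), if_neg (by omega), if_neg (by omega), if_neg (by omega),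
      if_neg (by omega), if_neg (by omega), if_neg (by omega), if_neg (by omega),
      if_neg (by omega)] at h1
    simp at h1
  · have h1 := congrArg (fun x : (ZMod 2)[T;T⁻¹] => x.coeff (a - 3 * l + k)) h
    simp only [AddMonoidAlgebra.coeff_add, Finsupp.add_apply, T_apply] at h1
    rw [if_neg (by omega), if_pos (by omega)] at h1
    rw [if_neg (by omega), if_neg (by omega), if_neg (by omega), if_neg (by omega),
      if_neg (by omega), if_neg (by omega), if_neg (by omega), if_neg (by omega),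
      if_neg (by omega), if_neg (by omega), if_neg (by omega), if_neg (by omega),
      if_neg (by omega), if_neg (by omega), if_neg (by omega), if_neg (by omega)] at h1
    simp at h1
  · have h1 := congrArg (fun x : (ZMod 2)[T;T⁻¹] => x.coeff (b - 3 * k)) h
    simp only [AddMonoidAlgebra.coeff_add, Finsupp.add_apply, T_apply] at h1
    rw [if_neg (by omega), if_neg (by omega), if_neg (by omega), if_neg (by omega),
      if_neg (by omega), if_neg (by omega), if_neg (by omega), if_neg (by omega),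
      if_neg (by omega), if_pos (by omega), if_neg (by omega), if_neg (by omega),
      if_neg (by omega), if_neg (by omega), if_neg (by omega), if_neg (by omega),
      if_neg (by omega), if_neg (by omega)] at h1
    simp at h1

lemma comb2_aux {a b k l : ℤ} (hk : 0 < k) (hkl : k < l)
    (h : (T b * (1 + T (-k) + T (-(3 * k))) * (1 + T (-l) + T (-(3 * l))) : (ZMod 2)[T;T⁻¹]) =
      T a * (1 + T k + T (3 * k)) * (1 + T l + T (3 * l))) : False := by
  have hL : (T b * (1 + T (-k) + T (-(3 * k))) * (1 + T (-l) + T (-(3 * l))) : (ZMod 2)[T;T⁻¹]) =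
      T (b + -(3 * k) + -(3 * l)) + T (b + -k + -(3 * l)) + T (b + -(3 * l))
      + T (b + -(3 * k) + -l) + T (b + -k + -l) + T (b + -l)
      + T (b + -(3 * k)) + T (b + -k) + T b := by
    simp only [T_add]; ring
  have hR : (T a * (1 + T k + T (3 * k)) * (1 + T l + T (3 * l)) : (ZMod 2)[T;T⁻¹]) =
      T a + T (a + k) + T (a + 3 * k) + T (a + l) + T (a + k + l) + T (a + 3 * k + l)
      + T (a + 3 * l) + T (a + k + 3 * l) + T (a + 3 * k + 3 * l) := by
    simp only [T_add]; ring
  rw [hL, hR] at h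
  rcases lt_trichotomy (b - 3 * k - 3 * l) a with hlt | heq | hgt
  · have h1 := congrArg (fun x : (ZMod 2)[T;T⁻¹] => x.coeff (b - 3 * k - 3 * l)) h
    simp only [AddMonoidAlgebra.coeff_add, Finsupp.add_apply, T_apply] at h1
    rw [if_pos (by omega)] at h1
    rw [if_neg (by omega), if_neg (by omega), if_neg (by omega), if_neg (by omega),
      if_neg (by omega), if_neg (by omega), if_neg (by omega), if_neg (by omega),
      if_neg (by omega), if_neg (by omega), if_neg (by omega), if_neg (by omega),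
      if_neg (by omega), if_neg (by omega), if_neg (by omega), if_neg (by omega),
      if_neg (by omega)] at h1
    simp at h1
  · have h1 := congrArg (fun x : (ZMod 2)[T;T⁻¹] => x.coeff (a + k)) h
    simp only [AddMonoidAlgebra.coeff_add, Finsupp.add_apply, T_apply] at h1
    rw [if_neg (by omega), if_neg (by omega), if_neg (by omega), if_neg (by omega),
      if_neg (by omega), if_neg (by omega), if_neg (by omega), if_neg (by omega),
      if_neg (by omega), if_neg (by omega), if_pos trivial, if_neg (by omega),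
      if_neg (by omega), if_neg (by omega), if_neg (by omega), if_neg (by omega),
      if_neg (by omega), if_neg (by omega)] at h1
    simp at h1
  · have h1 := congrArg (fun x : (ZMod 2)[T;T⁻¹] => x.coeff a) h
    simp only [AddMonoidAlgebra.coeff_add, Finsupp.add_apply, T_apply] at h1
    rw [if_neg (by omega), if_neg (by omega), if_neg (by omega), if_neg (by omega),
      if_neg (by omega), if_neg (by omega), if_neg (by omega), if_neg (by omega),
      if_neg (by omega), if_pos trivial, if_neg (by omega), if_neg (by omega),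
      if_neg (by omega), if_neg (by omega), if_neg (by omega), if_neg (by omega),
      if_neg (by omega), if_neg (by omega)] at h1
    simp at h1

lemma neg_eq_self' (x : (ZMod 2)[T;T⁻¹]) : -x = x := by
  ext a
  rw [AddMonoidAlgebra.coeff_neg, Finsupp.neg_apply]
  exact ZModModule.neg_eq_self _

lemma red_fp (k : ℤ) : red (fp k) = 1 + T k + T (3 * k) := by
  rw [fp, map_sub, map_add, map_one, red_T, red_T, sub_eq_add_neg, neg_eq_self']

lemma red_fp' (k : ℤ) : red (invert (fp k)) = 1 + T (-k) + T (-(3 * k)) := by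
  rw [invert_fp, map_sub, map_add, map_one, red_T, red_T, sub_eq_add_neg, neg_eq_self']

lemma comb1 {a b k l : ℤ} (hk : 0 < k) (hl : 0 < l)
    (h : (T a * red (fp k) * red (invert (fp l)) : (ZMod 2)[T;T⁻¹]) =
      T b * red (invert (fp k)) * red (fp l)) : k = l := by
  rw [red_fp, red_fp', red_fp, red_fp'] at h
  rcases lt_trichotomy k l with hlt | heq | hgt
  · exact (comb1_aux hk hlt h).elim
  · exact heq
  · refine (comb1_aux (a := b) (b := a) hl hgt ?_).elim
    linear_combination -h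

lemma comb2 {a b k l : ℤ} (hk : 0 < k) (hl : 0 < l)
    (h : (T b * red (invert (fp k)) * red (invert (fp l)) : (ZMod 2)[T;T⁻¹]) =
      T a * red (fp k) * red (fp l)) : k = l := by
  rw [red_fp, red_fp', red_fp, red_fp'] at h
  rcases lt_trichotomy k l with hlt | heq | hgt
  · exact (comb2_aux hk hlt h).elim
  · exact heq
  · refine (comb2_aux (a := a) (b := b) hl hgt ?_).elim
    linear_combination h

/-! ### Isometries -/

lemma Isometric.symm {n : Type*} [Fintype n] [DecidableEq n] {A B : Matrix n n ℤ[T;T⁻¹]}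
    (h : Isometric A B) : Isometric B A := by
  obtain ⟨P, hP, hPAB⟩ := h
  refine ⟨P⁻¹, ?_, ?_⟩
  · exact Matrix.isUnit_nonsing_inv_det P hP
  · have h1 : P * P⁻¹ = 1 := Matrix.mul_nonsing_inv P hP
    have h2 : conjT P⁻¹ * conjT P = 1 := by rw [← conjT_mul, h1, conjT_one]
    calc conjT P⁻¹ * B * P⁻¹ = (conjT P⁻¹ * conjT P) * A * (P * P⁻¹) := by
          rw [← hPAB]; simp only [Matrix.mul_assoc]
      _ = A := by rw [h1, h2, Matrix.one_mul, Matrix.mul_one]

lemma unit_cases {u v : ℤ[T;T⁻¹]} (h : invert u * u + invert v * v = 1) :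
    (∃ a ε : ℤ, (ε = 1 ∨ ε = -1) ∧ u = C ε * T a ∧ v = 0) ∨
    (∃ a ε : ℤ, (ε = 1 ∨ ε = -1) ∧ v = C ε * T a ∧ u = 0) := by
  have h1 : nrm u + nrm v = 1 := by
    have := congrArg (fun x : ℤ[T;T⁻¹] => x.coeff 0) h
    simp only [AddMonoidAlgebra.coeff_add, Finsupp.add_apply, coeff_zero_invert_mul,
      AddMonoidAlgebra.coeff_one_zero] at this
    exact this
  have h2 := nrm_nonneg u
  have h3 := nrm_nonneg v
  rcases (show nrm u = 1 ∧ nrm v = 0 ∨ nrm u = 0 ∧ nrm v = 1 by omega) with ⟨h4, h5⟩ | ⟨h4, h5⟩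
  · left
    obtain ⟨a, ε, hε, hu⟩ := nrm_eq_one h4
    exact ⟨a, ε, hε, hu, nrm_eq_zero h5⟩
  · right
    obtain ⟨a, ε, hε, hu⟩ := nrm_eq_one h5
    exact ⟨a, ε, hε, hu, nrm_eq_zero h4⟩

lemma red_unit {ε a : ℤ} (hε : ε = 1 ∨ ε = -1) : red (C ε * T a) = T a := by
  rw [map_mul, red_C_unit hε, red_T, one_mul]

/-- Isometric planes `G k`, `G l` with `k, l > 0` have `k = l`. -/
lemma planes {k l : ℤ} (hk : 0 < k) (hl : 0 < l) (A : Matrix (Fin 2) (Fin 2) ℤ[T;T⁻¹])
    (hA : conjT A * Gm l * A = Gm k) : k = l := by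
  -- coordinates of the images of `(2, 0)` and `(0, 2)`
  set X : Matrix (Fin 2) (Fin 2) ℤ[T;T⁻¹] := A * (Bm k).adjugate with hX
  set N : Matrix (Fin 2) (Fin 2) ℤ[T;T⁻¹] := Bm l * X with hN
  have hadj : Bm k * (Bm k).adjugate = (2 : ℤ[T;T⁻¹]) • (1 : Matrix (Fin 2) (Fin 2) ℤ[T;T⁻¹]) := by
    rw [Matrix.mul_adjugate, det_Bm]
  have hadj' : (Bm k).adjugate * Bm k = (2 : ℤ[T;T⁻¹]) • (1 : Matrix (Fin 2) (Fin 2) ℤ[T;T⁻¹]) := by
    rw [Matrix.adjugate_mul, det_Bm]
  have hNN : conjT N * N = (4 : ℤ[T;T⁻¹]) • (1 : Matrix (Fin 2) (Fin 2) ℤ[T;T⁻¹]) := by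
    calc conjT N * N = conjT (Bm k).adjugate * (conjT A * (conjT (Bm l) * Bm l) * A) *
          (Bm k).adjugate := by
          rw [hN, hX]; simp only [conjT_mul, Matrix.mul_assoc]
      _ = conjT (Bm k).adjugate * ((2 : ℤ[T;T⁻¹]) • Gm k) * (Bm k).adjugate := by
          rw [conjT_Bm_mul, Matrix.mul_smul, Matrix.smul_mul, hA]
      _ = conjT (Bm k * (Bm k).adjugate) * (Bm k * (Bm k).adjugate) := by
          rw [← conjT_Bm_mul]; simp only [conjT_mul, Matrix.mul_assoc]
      _ = _ := by
          have h2 : invert (2 : ℤ[T;T⁻¹]) = 2 := map_ofNat _ 2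
          rw [hadj, conjT_smul, conjT_one, h2, Matrix.smul_mul, Matrix.mul_smul, Matrix.one_mul,
            smul_smul]
          norm_num
  -- entries of `N`
  have hN0 : ∀ j, N 0 j = uu l (X 0 j) (X 1 j) := by
    intro j
    rw [hN, Matrix.mul_apply, Fin.sum_univ_two]
    simp [Bm, uu]
  have hN1 : ∀ j, N 1 j = vv l (X 0 j) (X 1 j) := by
    intro j
    rw [hN, Matrix.mul_apply, Fin.sum_univ_two]
    simp [Bm, vv]
  have hcol : ∀ i j, invert (N 0 i) * N 0 j + invert (N 1 i) * N 1 j = if i = j then 4 else 0 := by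
    intro i j
    have := congrFun (congrFun hNN i) j
    rw [Matrix.mul_apply, Fin.sum_univ_two] at this
    simp only [conjT_apply, Matrix.smul_apply, Matrix.one_apply, smul_eq_mul] at this
    rw [this]
    split_ifs <;> simp
  have hred : ∀ j, red (X 0 j) = 0 := by
    intro j
    apply red_eq_zero_of_four hl (X 0 j) (X 1 j)
    rw [← hN0, ← hN1, hcol, if_pos rfl]
  have heven0 : ∀ j, ∃ w, N 0 j = 2 * w := by
    intro j
    apply exists_of_red_eq_zero
    rw [hN0, red_uu, hred, zero_mul]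
  have heven1 : ∀ j, ∃ w, N 1 j = 2 * w := by
    intro j
    apply exists_of_red_eq_zero
    rw [hN1, red_vv, hred, zero_mul]
  choose r0 hr0 using heven0
  choose r1 hr1 using heven1
  have h2 : invert (2 : ℤ[T;T⁻¹]) = 2 := map_ofNat _ 2
  have hrr : ∀ i j, invert (r0 i) * r0 j + invert (r1 i) * r1 j = if i = j then 1 else 0 := by
    intro i j
    have := hcol i j
    rw [hr0, hr0, hr1, hr1, map_mul, map_mul, h2] at this
    have h4 : (2 : ℤ[T;T⁻¹]) * 2 * (invert (r0 i) * r0 j + invert (r1 i) * r1 j -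
        if i = j then 1 else 0) = 0 := by
      by_cases hij : i = j
      · rw [if_pos hij] at this ⊢
        linear_combination this
      · rw [if_neg hij] at this ⊢
        linear_combination this
    rcases mul_eq_zero.mp h4 with h5 | h5
    · exact absurd h5 (mul_ne_zero two_ne two_ne)
    · exact sub_eq_zero.mp h5
  -- `R * B_k = B_l * A`
  have hRB : ∀ i j, N i 0 * Bm k 0 j + N i 1 * Bm k 1 j = 2 * (Bm l * A) i j := by
    intro i j
    have h5 : N * Bm k = (2 : ℤ[T;T⁻¹]) • (Bm l * A) := by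
      rw [hN, hX, Matrix.mul_assoc, Matrix.mul_assoc, hadj', Matrix.mul_smul, Matrix.mul_smul,
        Matrix.mul_one]
    have := congrFun (congrFun h5 i) j
    rw [Matrix.mul_apply, Fin.sum_univ_two] at this
    rw [this, Matrix.smul_apply, smul_eq_mul]
  have hE0 : r0 0 * fp k + r0 1 * invert (fp k) = uu l (A 0 0) (A 1 0) := by
    have h5 := hRB 0 0
    rw [hr0, hr0, Matrix.mul_apply, Fin.sum_univ_two] at h5
    simp only [Bm, Matrix.of_apply, Matrix.cons_val', Matrix.cons_val_zero,
      Matrix.cons_val_one, Matrix.cons_val_fin_one] at h5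
    have h6 : 2 * (r0 0 * fp k + r0 1 * invert (fp k) - uu l (A 0 0) (A 1 0)) = 0 := by
      rw [uu]; linear_combination h5
    rcases mul_eq_zero.mp h6 with h7 | h7
    · exact absurd h7 two_ne
    · exact sub_eq_zero.mp h7
  have hE1 : r1 0 * fp k + r1 1 * invert (fp k) = vv l (A 0 0) (A 1 0) := by
    have h5 := hRB 1 0
    rw [hr1, hr1, Matrix.mul_apply, Fin.sum_univ_two] at h5
    simp only [Bm, Matrix.of_apply, Matrix.cons_val', Matrix.cons_val_zero,
      Matrix.cons_val_one, Matrix.cons_val_fin_one] at h5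
    have h6 : 2 * (r1 0 * fp k + r1 1 * invert (fp k) - vv l (A 0 0) (A 1 0)) = 0 := by
      rw [vv]; linear_combination h5
    rcases mul_eq_zero.mp h6 with h7 | h7
    · exact absurd h7 two_ne
    · exact sub_eq_zero.mp h7
  have hE0r := congrArg red hE0
  have hE1r := congrArg red hE1
  rw [red_uu, map_add, map_mul, map_mul] at hE0r
  rw [red_vv, map_add, map_mul, map_mul] at hE1r
  have hc0 := hrr 0 0
  have hc1 := hrr 1 1
  have hc01 := hrr 0 1
  rw [if_pos rfl] at hc0 hc1
  rw [if_neg (by decide)] at hc01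
  rcases unit_cases hc0 with ⟨a, ε, hε, hu, hv⟩ | ⟨a, ε, hε, hu, hv⟩
  · -- `r0 0` is a unit, `r1 0 = 0`
    rcases unit_cases hc1 with ⟨b, η, hη, hu', hv'⟩ | ⟨b, η, hη, hu', hv'⟩
    · exfalso
      rw [hu, hv, hu', hv'] at hc01
      have h7 : invert (C ε * T a) * (C η * T b) = (0 : ℤ[T;T⁻¹]) := by
        linear_combination hc01
      have h8 := congrArg red h7
      rw [map_mul, map_zero, red_unit hη, map_mul, invert_C, invert_T, red_unit hε, ← T_add] at h8
      have h9 := congrArg (fun x : (ZMod 2)[T;T⁻¹] => x.coeff (-a + b)) h8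
      simp at h9
    · rw [hu, hv', red_unit hε, map_zero, zero_mul, add_zero] at hE0r
      rw [hv, hu', red_unit hη, map_zero, zero_mul, zero_add] at hE1r
      apply comb1 (a := a) (b := b) hk hl
      linear_combination red (invert (fp l)) * hE0r - red (fp l) * hE1r
  · rcases unit_cases hc1 with ⟨b, η, hη, hu', hv'⟩ | ⟨b, η, hη, hu', hv'⟩
    · rw [hv, hu', red_unit hη, map_zero, zero_mul, zero_add] at hE0r
      rw [hu, hv', red_unit hε, map_zero, zero_mul, add_zero] at hE1r
      apply comb2 (a := a) (b := b) hk hl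
      linear_combination red (invert (fp l)) * hE0r - red (fp l) * hE1r
    · exfalso
      rw [hu, hv, hu', hv'] at hc01
      have h7 : invert (C ε * T a) * (C η * T b) = (0 : ℤ[T;T⁻¹]) := by
        linear_combination hc01
      have h8 := congrArg red h7
      rw [map_mul, map_zero, red_unit hη, map_mul, invert_C, invert_T, red_unit hε, ← T_add] at h8
      have h9 := congrArg (fun x : (ZMod 2)[T;T⁻¹] => x.coeff (-a + b)) h8
      simp at h9

/-! ### Adding a standard summand -/

/-- The form `G k ⊕ (1)^m`. -/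
noncomputable def Fm (m : ℕ) (k : ℤ) : Matrix (Fin 2 ⊕ Fin m) (Fin 2 ⊕ Fin m) ℤ[T;T⁻¹] :=
  Matrix.fromBlocks (Gm k) 0 0 1

lemma diag_formula (m : ℕ) (k : ℤ) {n : Type*} [Fintype n] [DecidableEq n]
    (P : Matrix (Fin 2 ⊕ Fin m) n ℤ[T;T⁻¹]) (i : n) :
    2 * (conjT P * Fm m k * P) i i =
      invert (uu k (P (Sum.inl 0) i) (P (Sum.inl 1) i)) * uu k (P (Sum.inl 0) i) (P (Sum.inl 1) i)
      + invert (vv k (P (Sum.inl 0) i) (P (Sum.inl 1) i)) * vv k (P (Sum.inl 0) i) (P (Sum.inl 1) i)
      + 2 * ∑ j : Fin m, invert (P (Sum.inr j) i) * P (Sum.inr j) i := by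
  have h2 : invert (2 : ℤ[T;T⁻¹]) = 2 := map_ofNat _ 2
  rw [Matrix.mul_apply, Fintype.sum_sum_type, Fin.sum_univ_two]
  have hl : ∀ a : Fin 2, (conjT P * Fm m k) i (Sum.inl a) =
      invert (P (Sum.inl 0) i) * Gm k 0 a + invert (P (Sum.inl 1) i) * Gm k 1 a := by
    intro a
    rw [Matrix.mul_apply, Fintype.sum_sum_type, Fin.sum_univ_two]
    simp [Fm, conjT_apply]
  have hr : ∀ j : Fin m, (conjT P * Fm m k) i (Sum.inr j) = invert (P (Sum.inr j) i) := by
    intro j
    rw [Matrix.mul_apply, Fintype.sum_sum_type, Fin.sum_univ_two]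
    simp [Fm, conjT_apply, Matrix.one_apply]
  rw [hl, hl]
  simp only [hr]
  rw [mul_add]
  congr 1
  simp only [Gm, uu, vv, Matrix.of_apply, Matrix.cons_val', Matrix.cons_val_zero,
      Matrix.cons_val_one, Matrix.cons_val_fin_one, map_add, map_mul, map_neg, h2, invert_invert']
  ring

lemma coeff_two : (2 : ℤ[T;T⁻¹]).coeff 0 = 2 := by
  have : (2 : ℤ[T;T⁻¹]) = C 2 := by simp
  rw [this, C_apply, if_pos rfl]

/-- A vector of norm one in `G k ⊕ (1)^m` lies in the second summand. -/
lemma first_block_zero (m : ℕ) {k : ℤ} (hk : 0 < k) {n : Type*} [Fintype n] [DecidableEq n]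
    (P : Matrix (Fin 2 ⊕ Fin m) n ℤ[T;T⁻¹]) (i : n) (h : (conjT P * Fm m k * P) i i = 1)
    (a : Fin 2) : P (Sum.inl a) i = 0 := by
  have h1 := diag_formula m k P i
  rw [h] at h1
  have h3 := congrArg (fun x : ℤ[T;T⁻¹] => x.coeff 0) h1
  simp only [AddMonoidAlgebra.coeff_add, Finsupp.add_apply, coeff_zero_invert_mul, mul_one,
    coeff_two, two_mul] at h3
  have h4 : (∑ j : Fin m, invert (P (Sum.inr j) i) * P (Sum.inr j) i).coeff 0 =
      ∑ j : Fin m, nrm (P (Sum.inr j) i) := by
    have : ∀ (s : Finset (Fin m)), (∑ j ∈ s, invert (P (Sum.inr j) i) * P (Sum.inr j) i).coeff 0 =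
        ∑ j ∈ s, nrm (P (Sum.inr j) i) := by
      intro s
      induction s using Finset.induction_on with
      | empty => simp
      | insert x s hx ih =>
        rw [Finset.sum_insert hx, Finset.sum_insert hx, AddMonoidAlgebra.coeff_add,
          Finsupp.add_apply, ih, coeff_zero_invert_mul]
    exact this _
  rw [h4] at h3
  have h5 : 0 ≤ ∑ j : Fin m, nrm (P (Sum.inr j) i) := Finset.sum_nonneg fun _ _ => nrm_nonneg _
  obtain ⟨h6, h7⟩ := uu_vv_eq_zero hk (P (Sum.inl 0) i) (P (Sum.inl 1) i) (by omega)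
  obtain ⟨h8, h9⟩ := coords_eq_zero _ _ h6 h7
  fin_cases a
  · exact h8
  · exact h9

lemma not_isometric_one (m : ℕ) {k : ℤ} (hk : 0 < k) : ¬ Isometric (Fm m k) 1 := by
  rintro ⟨P, hP, h⟩
  have hrow : ∀ i, P (Sum.inl 0) i = 0 := by
    intro i
    exact first_block_zero m hk P i (by rw [h, Matrix.one_apply_eq]) 0
  have : P.det = 0 := Matrix.det_eq_zero_of_row_eq_zero (Sum.inl 0) hrow
  rw [this] at hP
  exact not_isUnit_zero hP

lemma not_isometric_of_ne (m : ℕ) {k l : ℤ} (hk : 0 < k) (hl : 0 < l) (hkl : k ≠ l) :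
    ¬ Isometric (Fm m l) (Fm m k) := by
  rintro ⟨P, hP, h⟩
  apply hkl
  have hcol : P.toBlocks₁₂ = 0 := by
    refine Matrix.ext fun a j => ?_
    rw [Matrix.toBlocks₁₂, Matrix.of_apply, Matrix.zero_apply]
    apply first_block_zero m hl P (Sum.inr j)
    rw [h, Fm, Matrix.fromBlocks_apply₂₂, Matrix.one_apply_eq]
  set A := P.toBlocks₁₁ with hA
  set Cc := P.toBlocks₂₁ with hC
  set D := P.toBlocks₂₂ with hD
  have hPb : P = Matrix.fromBlocks A 0 Cc D := by
    rw [← hcol]; exact (Matrix.fromBlocks_toBlocks P).symm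
  have hPc : conjT P = Matrix.fromBlocks (conjT A) (conjT Cc) 0 (conjT D) := by
    rw [hPb]
    unfold conjT
    rw [Matrix.fromBlocks_map, Matrix.fromBlocks_transpose]
    congr 1
  rw [hPc, hPb, Fm, Fm, Matrix.fromBlocks_multiply, Matrix.fromBlocks_multiply] at h
  simp only [Matrix.mul_zero, Matrix.zero_mul, add_zero, zero_add, Matrix.mul_one] at h
  rw [Matrix.fromBlocks_inj] at h
  obtain ⟨h11, -, h21, h22⟩ := h
  have hDD : D * conjT D = 1 := mul_eq_one_comm.mp h22
  have hC0 : Cc = 0 := by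
    calc Cc = (D * conjT D) * Cc := by rw [hDD, Matrix.one_mul]
      _ = D * (conjT D * Cc) := by rw [Matrix.mul_assoc]
      _ = 0 := by rw [h21, Matrix.mul_zero]
  rw [hC0, Matrix.mul_zero, add_zero] at h11
  exact planes hk hl A h11

end Pool.Agent.Lib.MP_64c4e2_gt
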